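import Pool.Agent.H295R2.T7

/-!
The Laplace transform of the Mertens function and the mean square of its increments in the
logarithmic scale.
-/

set_option autoImplicit false

open MeasureTheory Set Filter Topology
open Pool.Agent.H295R2

namespace Pool.Agent.TH301.SM

noncomputable section

/-- The Mertens function in the logarithmic scale. -/
def Me (u : ℝ) : ℂ := ((Mx (Real.exp u) : ℝ) : ℂ)

theorem Mx_measurable : Measurable Mx := by
  have h : Mx = (fun n : ℕ => ∑ k ∈ Finset.Icc 1 n, mu k) ∘ fun y : ℝ => ⌊y⌋₊ := rfl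
  rw [h]
  exact measurable_from_top.comp Nat.measurable_floor

theorem Mx_of_lt_one {y : ℝ} (hy : y < 1) : Mx y = 0 := by
  have : ⌊y⌋₊ = 0 := Nat.floor_eq_zero.2 hy
  rw [Mx, this]
  simp

theorem Me_nice {C σ : ℝ} (hC : 0 < C) (h : ∀ y : ℝ, 1 ≤ y → |Mx y| ≤ C * y ^ σ) :
    Nice Me C σ 0 where
  meas := Complex.measurable_ofReal.comp (Mx_measurable.comp Real.measurable_exp)
  bound := by
    intro u
    unfold Me
    rw [Complex.norm_real, Real.norm_eq_abs]
    rcases lt_or_ge u 0 with hu | hu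
    · rw [Mx_of_lt_one (by rw [← Real.exp_zero]; exact Real.exp_lt_exp.2 hu), abs_zero]
      positivity
    · refine (h _ (Real.one_le_exp hu)).trans (le_of_eq ?_)
      rw [← Real.exp_mul, mul_comm u σ]
  zero := by
    intro u hu
    unfold Me
    rw [Mx_of_lt_one (by rw [← Real.exp_zero]; exact Real.exp_lt_exp.2 hu), Complex.ofReal_zero]

theorem Lap_Me_of_one_lt {s : ℂ} (hs : 1 < s.re) : Lap Me s = fz s / s := by
  have hs0 : s ≠ 0 := by rintro rfl; simp at hs; linarith
  have hS := moebius_lseries hs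
  have hO : (fun n : ℕ => ∑ k ∈ Finset.Icc 1 n, ((ArithmeticFunction.moebius k : ℤ) : ℂ))
      =O[atTop] fun n : ℕ => (n : ℝ) ^ (1 : ℝ) := by
    refine Asymptotics.IsBigO.of_bound 1 (Eventually.of_forall fun n => ?_)
    rw [Real.rpow_one, one_mul, Real.norm_of_nonneg (Nat.cast_nonneg n)]
    refine (norm_sum_le _ _).trans ?_
    calc ∑ k ∈ Finset.Icc 1 n, ‖((ArithmeticFunction.moebius k : ℤ) : ℂ)‖
        ≤ ∑ k ∈ Finset.Icc 1 n, (1 : ℝ) := by
          refine Finset.sum_le_sum fun k _ => ?_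
          have := abs_mu_le k
          unfold mu at this
          have e : ((ArithmeticFunction.moebius k : ℤ) : ℂ)
              = (((ArithmeticFunction.moebius k : ℤ) : ℝ) : ℂ) := by push_cast; rfl
          rw [e, Complex.norm_real, Real.norm_eq_abs]
          exact this
      _ = n := by simp
  have h1 := LSeries_eq_mul_integral (fun n => ((ArithmeticFunction.moebius n : ℤ) : ℂ))
    zero_le_one hs hS.LSeriesSummable hO
  rw [hS.LSeries_eq] at h1
  have h2 : ∫ t in Ioi (1 : ℝ), (∑ k ∈ Finset.Icc 1 ⌊t⌋₊, ((ArithmeticFunction.moebius k : ℤ) : ℂ))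
      * (t : ℂ) ^ (-(s + 1)) = Lap Me s := by
    have e : ∀ t : ℝ, (∑ k ∈ Finset.Icc 1 ⌊t⌋₊, ((ArithmeticFunction.moebius k : ℤ) : ℂ))
        = ((Mx t : ℝ) : ℂ) := by
      intro t
      unfold Mx mu
      push_cast
      rfl
    simp_rw [e]
    have e2 : ∫ t in Ioi (1 : ℝ), ((Mx t : ℝ) : ℂ) * (t : ℂ) ^ (-(s + 1))
        = ∫ t in Ioi (0 : ℝ), ((Mx t : ℝ) : ℂ) * (t : ℂ) ^ (-(s + 1)) := by
      rw [← integral_Ici_eq_integral_Ioi]
      symm
      refine setIntegral_eq_of_subset_of_forall_sdiff_eq_zero measurableSet_Ioi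
        (fun x (hx : 1 ≤ x) => show (0 : ℝ) < x by linarith) fun x hx => ?_
      have hx1 : x < 1 := not_le.1 hx.2
      rw [Mx_of_lt_one hx1, Complex.ofReal_zero, zero_mul]
    rw [e2, change_exp_neg]
    unfold Lap
    rw [← integral_neg_eq_self]
    refine integral_congr_ae (Eventually.of_forall fun u => ?_)
    simp only [neg_neg]
    have h3 : ((Real.exp u : ℝ) : ℂ) ^ (-(s + 1)) = Complex.exp (-(s + 1) * u) := by
      rw [Complex.ofReal_exp, Complex.cpow_def_of_ne_zero (Complex.exp_ne_zero _),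
        Complex.log_exp (by simp [Real.pi_pos]) (by simp [Real.pi_pos.le])]
      ring_nf
    rw [h3, Complex.ofReal_exp]
    unfold Me
    rw [mul_left_comm, ← Complex.exp_add]
    congr 2
    ring
  rw [h2] at h1
  rw [h1]
  field_simp

theorem Lap_Me {C σ : ℝ} (hC : 0 < C) (h : ∀ y : ℝ, 1 ≤ y → |Mx y| ≤ C * y ^ σ)
    (hσ0 : 0 < σ) (hσ : zetaSup ≤ σ) {s : ℂ} (hs : σ < s.re) : Lap Me s = fz s / s := by
  have hn := Me_nice hC h
  have hd1 : DifferentiableOn ℂ (Lap Me) {s : ℂ | σ < s.re} := fun s hs =>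
    (hn.Lap_differentiableAt hs).differentiableWithinAt
  have hd2 : DifferentiableOn ℂ (fun s => fz s / s) {s : ℂ | σ < s.re} := by
    intro s hs
    have h0 : s ≠ 0 := by
      rintro rfl
      have : σ < 0 := by simpa using hs
      linarith
    exact ((fz_differentiableAt (zetaSup_free s (lt_of_le_of_lt hσ hs))).div
      differentiableAt_id h0).differentiableWithinAt
  have ho := halfplane_open σ
  have ha1 := hd1.analyticOnNhd ho
  have ha2 := hd2.analyticOnNhd ho
  set z0 : ℂ := ((max σ 1 + 1 : ℝ) : ℂ) with hz0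
  have hz0re : z0.re = max σ 1 + 1 := by rw [hz0, Complex.ofReal_re]
  have hz1 : σ < z0.re := by rw [hz0re]; linarith [le_max_left σ 1]
  have hz2 : 1 < z0.re := by rw [hz0re]; linarith [le_max_right σ 1]
  have hev : Lap Me =ᶠ[𝓝 z0] fun s => fz s / s := by
    filter_upwards [(halfplane_open 1).mem_nhds (show z0 ∈ {s : ℂ | 1 < s.re} from hz2)] with s hs
    exact Lap_Me_of_one_lt hs
  exact ha1.eqOn_of_preconnected_of_eventuallyEq ha2 (halfplane_preconnected σ) hz1 hev hs

end

end Pool.Agent.TH301.SM
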