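import Pool.Agent.TH301.SM.A

/-!
The mean square of the increments of the Mertens function in the logarithmic scale.
-/

set_option autoImplicit false

open MeasureTheory Set Filter Topology
open Pool.Agent.H295R2

namespace Pool.Agent.TH301.SM

noncomputable section

theorem shift_nice {k : ℝ → ℂ} {B a u₀ h : ℝ} (hk : Nice k B a u₀) (ha : 0 ≤ a) (h0 : 0 < h)
    (h1 : h ≤ 1) : Nice (fun u => k (u + h) - k u) (B * (Real.exp a + 1)) a (u₀ - h) where
  meas := (hk.meas.comp (measurable_id.add_const h)).sub hk.meas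
  bound := by
    intro u
    refine (norm_sub_le _ _).trans ?_
    have h2 := hk.bound (u + h)
    have h3 := hk.bound u
    have h4 : Real.exp (a * (u + h)) ≤ Real.exp a * Real.exp (a * u) := by
      rw [← Real.exp_add]
      apply Real.exp_le_exp.2
      nlinarith
    have h5 : B * Real.exp (a * (u + h)) ≤ B * (Real.exp a * Real.exp (a * u)) :=
      mul_le_mul_of_nonneg_left h4 hk.C_nonneg
    calc ‖k (u + h)‖ + ‖k u‖ ≤ B * (Real.exp a * Real.exp (a * u)) + B * Real.exp (a * u) := by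
          linarith
      _ = B * (Real.exp a + 1) * Real.exp (a * u) := by ring
  zero := by
    intro u hu
    rw [hk.zero (u + h) (by linarith), hk.zero u (by linarith), sub_zero]

theorem shift_Lap {k : ℝ → ℂ} {B a u₀ h : ℝ} (hk : Nice k B a u₀) {s : ℂ} (hs : a < s.re) :
    Lap (fun u => k (u + h) - k u) s = (Complex.exp (s * h) - 1) * Lap k s := by
  have h1 := hk.Lap_shift s h
  have h2 : Lap (fun u => k (u + h) - k u) s =
      (∫ u : ℝ, k (u + h) * Complex.exp (-(s * u))) - ∫ u : ℝ, k u * Complex.exp (-(s * u)) := by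
    unfold Lap
    rw [← integral_sub (hk.shift_integrable hs h) (hk.integrable hs)]
    refine integral_congr_ae (Eventually.of_forall fun u => ?_)
    simp only
    ring
  rw [h2, h1]
  unfold Lap
  ring

theorem norm_phi_pow2 {η a : ℝ} {s : ℂ} (hη : 0 < η) (hη1 : η ≤ 1) (hs : 1 / 4 ≤ s.re)
    (hs2 : s.re ≤ 2) (ha : 0 ≤ a) (ha1 : a ≤ 2) :
    ‖phi η s‖ ^ 2 ≤ 3025 * (η * (1 + |s.im|)) ^ (-a) := by
  have hre : 0 < s.re := by linarith
  have h1 := norm_phi_le hη hη1 hre hs2
  have h2 := norm_phi_le' hη hη1 hre hs2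
  have hb : 0 < η * (1 + |s.im|) := by positivity
  have hs0 : 1 / 4 ≤ ‖s‖ := hs.trans ((le_abs_self _).trans (Complex.abs_re_le_norm s))
  have hs1 : |s.im| ≤ ‖s‖ := Complex.abs_im_le_norm s
  rcases le_or_gt (η * (1 + |s.im|)) 1 with h | h
  · have h3 : 1 ≤ (η * (1 + |s.im|)) ^ (-a) :=
      Real.one_le_rpow_of_pos_of_le_one_of_nonpos hb h (by linarith)
    nlinarith [norm_nonneg (phi η s)]
  · have h3 : (η * (1 + |s.im|)) ^ (-(2:ℝ)) ≤ (η * (1 + |s.im|)) ^ (-a) :=
      Real.rpow_le_rpow_of_exponent_le h.le (by linarith)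
    have h4 : (η * (1 + |s.im|)) ^ (-(2:ℝ)) = 1 / (η * (1 + |s.im|)) ^ 2 := by
      rw [Real.rpow_neg hb.le, one_div]
      norm_cast
    have h5 : 11 / (η * ‖s‖) ≤ 55 / (η * (1 + |s.im|)) := by
      rw [div_le_div_iff₀ (by positivity) hb]
      have : 1 + |s.im| ≤ 5 * ‖s‖ := by linarith
      nlinarith
    calc ‖phi η s‖ ^ 2 ≤ (55 / (η * (1 + |s.im|))) ^ 2 :=
          pow_le_pow_left₀ (norm_nonneg _) (h2.trans h5) 2
      _ = 3025 * (η * (1 + |s.im|)) ^ (-(2:ℝ)) := by rw [h4, div_pow]; ring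
      _ ≤ 3025 * (η * (1 + |s.im|)) ^ (-a) := by gcongr

/-- The mean square of the increments. -/
theorem mean_sq {e : ℝ} (he : 0 < e) (he1 : e ≤ 1 / 2) : ∃ C : ℝ, 0 < C ∧ ∀ η : ℝ, 0 < η → η ≤ 1 →
    Integrable (fun u : ℝ => ‖Me (u + η) - Me u‖ ^ 2 * Real.exp (-(2 * (zetaSup + e) * u))) ∧
    ∫ u : ℝ, ‖Me (u + η) - Me u‖ ^ 2 * Real.exp (-(2 * (zetaSup + e) * u)) ≤ C * η ^ (1 - e) := by
  obtain ⟨σ, h1, h2, h3, h4, C, hC, hM⟩ := mertens_sup (e := e / 2) (by linarith)
  have hΘ := zetaSup_le_one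
  have hΘ' := half_le_zetaSup
  obtain ⟨Cf, hCf0, hCf⟩ := fz_bound (θ := zetaSup) (σ := zetaSup + e) (ε := e / 4) (by linarith)
    zetaSup_free (by linarith) (by linarith)
  set I0 : ℝ := ∫ ξ : ℝ, (1 + |2 * Real.pi * ξ|) ^ (-(1 + e / 2)) with hI0
  have hI0' : 0 ≤ I0 := integral_nonneg fun ξ => by positivity
  refine ⟨3025 * Cf ^ 2 * I0 + 1, by positivity, fun η hη hη1 => ?_⟩
  have hn := Me_nice hC hM
  have hn2 := shift_nice hn (by linarith) hη hη1
  have hσe : σ < zetaSup + e := by linarith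
  obtain ⟨p1, p2⟩ := plancherel_Lap hn2 hσe
  have hC2 := hn2.C_nonneg
  refine ⟨?_, ?_⟩
  · -- integrability
    have h6 := integrable_ind_exp (by linarith : 2 * (σ - (zetaSup + e)) < 0)
      ((C * (Real.exp σ + 1)) ^ 2) (0 - η)
    have hmeas : AEStronglyMeasurable
        (fun u : ℝ => ‖Me (u + η) - Me u‖ ^ 2 * Real.exp (-(2 * (zetaSup + e) * u))) volume := by
      refine AEStronglyMeasurable.mul ?_ ?_
      · exact ((hn2.meas.norm).pow_const 2).aestronglyMeasurable
      · exact Continuous.aestronglyMeasurable (by fun_prop)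
    refine h6.mono' hmeas (Eventually.of_forall fun u => ?_)
    rw [Real.norm_of_nonneg (by positivity)]
    by_cases hu : u ∈ Ici (0 - η)
    · rw [indicator_of_mem hu]
      have h7 := hn2.bound u
      have h8 : ‖Me (u + η) - Me u‖ ^ 2 ≤ (C * (Real.exp σ + 1) * Real.exp (σ * u)) ^ 2 :=
        pow_le_pow_left₀ (norm_nonneg _) h7 2
      calc ‖Me (u + η) - Me u‖ ^ 2 * Real.exp (-(2 * (zetaSup + e) * u))
          ≤ (C * (Real.exp σ + 1) * Real.exp (σ * u)) ^ 2
            * Real.exp (-(2 * (zetaSup + e) * u)) :=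
            mul_le_mul_of_nonneg_right h8 (Real.exp_pos _).le
        _ = (C * (Real.exp σ + 1)) ^ 2 * Real.exp (2 * (σ - (zetaSup + e)) * u) := by
            rw [mul_pow, mul_assoc, ← Real.exp_nat_mul, ← Real.exp_add]
            congr 2
            push_cast
            ring
    · rw [indicator_of_notMem hu]
      have := hn2.zero u (by simpa using hu)
      rw [this]
      simp
  · rw [← p2]
    have hint := (integrable_decay' (a := 1 + e / 2) (by linarith)).const_mul
      (3025 * Cf ^ 2 * η ^ (1 - e))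
    have hle : ∀ ξ : ℝ, ‖Lap (fun u => Me (u + η) - Me u)
        (((zetaSup + e : ℝ) : ℂ) + 2 * Real.pi * ξ * Complex.I)‖ ^ 2
        ≤ 3025 * Cf ^ 2 * η ^ (1 - e) * (1 + |2 * Real.pi * ξ|) ^ (-(1 + e / 2)) := by
      intro ξ
      set s : ℂ := ((zetaSup + e : ℝ) : ℂ) + 2 * Real.pi * ξ * Complex.I with hs
      have hre : s.re = zetaSup + e := line_re _ _
      have him : s.im = 2 * Real.pi * ξ := line_im _ _
      have hs0 : s ≠ 0 := by
        intro h0
        rw [h0, Complex.zero_re] at hre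
        linarith
      have e1 : Lap (fun u => Me (u + η) - Me u) s = η * (phi η s * fz s) := by
        rw [shift_Lap hn (by rw [hre]; exact hσe), Lap_Me hC hM (by linarith) h1
          (by rw [hre]; exact hσe), phi]
        have : (η : ℂ) ≠ 0 := by exact_mod_cast hη.ne'
        field_simp
      rw [e1, norm_mul, norm_mul, mul_pow, mul_pow, Complex.norm_real, Real.norm_eq_abs,
        abs_of_pos hη]
      have b1 := norm_phi_pow2 hη hη1 (s := s) (a := 1 + e) (by rw [hre]; linarith)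
        (by rw [hre]; linarith) (by linarith) (by linarith)
      have b2 := hCf s (by rw [hre]) (by rw [hre]; linarith)
      rw [him] at b1 b2
      set t : ℝ := 1 + |2 * Real.pi * ξ| with ht
      have ht0 : 0 < t := by positivity
      have b3 : ‖fz s‖ ^ 2 ≤ Cf ^ 2 * t ^ (e / 2) := by
        calc ‖fz s‖ ^ 2 ≤ (Cf * t ^ (e / 4)) ^ 2 := pow_le_pow_left₀ (norm_nonneg _) b2 2
          _ = Cf ^ 2 * t ^ (e / 2) := by
            rw [mul_pow, ← Real.rpow_natCast (t ^ (e / 4)) 2, ← Real.rpow_mul ht0.le]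
            congr 2
            push_cast
            ring
      calc η ^ 2 * (‖phi η s‖ ^ 2 * ‖fz s‖ ^ 2)
          ≤ η ^ 2 * ((3025 * (η * t) ^ (-(1 + e))) * (Cf ^ 2 * t ^ (e / 2))) := by gcongr
        _ = 3025 * Cf ^ 2 * (η ^ 2 * η ^ (-(1 + e))) * (t ^ (-(1 + e)) * t ^ (e / 2)) := by
            rw [Real.mul_rpow hη.le ht0.le]
            ring
        _ = 3025 * Cf ^ 2 * η ^ (1 - e) * t ^ (-(1 + e / 2)) := by
            rw [← Real.rpow_add ht0, ← Real.rpow_natCast η 2, ← Real.rpow_add hη]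
            congr 2
            · congr 1
              push_cast
              ring
            · ring
    refine (integral_mono p1 hint hle).trans ?_
    rw [integral_const_mul, ← hI0]
    have hp : 0 ≤ η ^ (1 - e) := by positivity
    nlinarith

end

end Pool.Agent.TH301.SM
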