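import Pool.Agent.TH301.SM.B

/-!
The mean square of the increments of the Mertens function.
-/

set_option autoImplicit false

open MeasureTheory Set Filter Topology
open Pool.Agent.H295R2
open scoped ENNReal

namespace Pool.Agent.TH301.SM

noncomputable section

/-- The square of the increment. -/
def DD (s t : ℝ) : ℝ≥0∞ := ENNReal.ofReal ((Mx t - Mx s) ^ 2)

theorem DD_measurable : Measurable (fun q : ℝ × ℝ => DD q.1 q.2) :=
  (((Mx_measurable.comp measurable_snd).sub (Mx_measurable.comp measurable_fst)).pow_const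
    2).ennreal_ofReal

theorem lint_exp (F : ℝ → ℝ≥0∞) :
    ∫⁻ x in Ioi (0 : ℝ), F x = ∫⁻ u : ℝ, ENNReal.ofReal (Real.exp u) * F (Real.exp u) := by
  have himg : Real.exp '' univ = Ioi 0 := by
    rw [image_univ, Real.range_exp]
  have h := lintegral_image_eq_lintegral_abs_deriv_mul MeasurableSet.univ
    (fun u _ => (Real.hasDerivAt_exp u).hasDerivWithinAt) Real.exp_injective.injOn F
  rw [himg] at h
  rw [h, setLIntegral_univ]
  refine lintegral_congr fun u => ?_
  rw [abs_of_pos (Real.exp_pos u)]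

/-- The region. -/
def RG (x y δ : ℝ) : Set (ℝ × ℝ) := {q | x ≤ q.1 ∧ q.1 < y ∧ q.1 ≤ q.2 ∧ q.2 < q.1 + δ}

theorem RG_meas (x y δ : ℝ) : MeasurableSet (RG x y δ) := by
  have h1 : MeasurableSet {q : ℝ × ℝ | x ≤ q.1} := measurableSet_le measurable_const measurable_fst
  have h2 : MeasurableSet {q : ℝ × ℝ | q.1 < y} := measurableSet_lt measurable_fst measurable_const
  have h3 : MeasurableSet {q : ℝ × ℝ | q.1 ≤ q.2} := measurableSet_le measurable_fst measurable_snd
  have h4 : MeasurableSet {q : ℝ × ℝ | q.2 < q.1 + δ} :=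
    measurableSet_lt measurable_snd (measurable_fst.add_const δ)
  exact h1.inter (h2.inter (h3.inter h4))

/-- The integrand. -/
def GG2 (x y δ : ℝ) (q : ℝ × ℝ) : ℝ≥0∞ := (RG x y δ).indicator (fun q => DD q.1 q.2) q

theorem GG2_meas (x y δ : ℝ) : Measurable (GG2 x y δ) := DD_measurable.indicator (RG_meas x y δ)

theorem lint_GG2 {x : ℝ} (hx : 0 < x) (y δ : ℝ) :
    ∫⁻ s in Ico x y, ∫⁻ t in Ico s (s + δ), DD s t
      = ∫⁻ s in Ioi (0 : ℝ), ∫⁻ t in Ioi (0 : ℝ), GG2 x y δ (s, t) := by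
  rw [← lintegral_indicator measurableSet_Ico, ← lintegral_indicator measurableSet_Ioi]
  refine lintegral_congr fun s => ?_
  by_cases hs : s ∈ Ico x y
  · have hs0 : s ∈ Ioi (0 : ℝ) := lt_of_lt_of_le hx hs.1
    rw [indicator_of_mem hs, indicator_of_mem hs0, ← lintegral_indicator measurableSet_Ico,
      ← lintegral_indicator measurableSet_Ioi]
    refine lintegral_congr fun t => ?_
    by_cases ht : t ∈ Ico s (s + δ)
    · have ht0 : t ∈ Ioi (0 : ℝ) := lt_of_lt_of_le hs0 ht.1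
      have hm : (s, t) ∈ RG x y δ := ⟨hs.1, hs.2, ht.1, ht.2⟩
      rw [indicator_of_mem ht, indicator_of_mem ht0, GG2, indicator_of_mem hm]
    · have hm : (s, t) ∉ RG x y δ := fun h => ht ⟨h.2.2.1, h.2.2.2⟩
      rw [indicator_of_notMem ht]
      by_cases ht0 : t ∈ Ioi (0 : ℝ)
      · rw [indicator_of_mem ht0, GG2, indicator_of_notMem hm]
      · rw [indicator_of_notMem ht0]
  · rw [indicator_of_notMem hs]
    have hm : ∀ t, (s, t) ∉ RG x y δ := fun t h => hs ⟨h.1, h.2.1⟩
    by_cases hs0 : s ∈ Ioi (0 : ℝ)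
    · rw [indicator_of_mem hs0]
      simp only [GG2]
      simp_rw [fun t => indicator_of_notMem (hm t) (fun q : ℝ × ℝ => DD q.1 q.2)]
      simp
    · rw [indicator_of_notMem hs0]

theorem lint_GG2' (x y δ : ℝ) :
    ∫⁻ s in Ioi (0 : ℝ), ∫⁻ t in Ioi (0 : ℝ), GG2 x y δ (s, t)
      = ∫⁻ η : ℝ, ∫⁻ u : ℝ, ENNReal.ofReal (Real.exp u) * (ENNReal.ofReal (Real.exp (u + η))
        * GG2 x y δ (Real.exp u, Real.exp (u + η))) := by
  rw [lint_exp]
  have e1 : ∀ u : ℝ, ENNReal.ofReal (Real.exp u) * ∫⁻ t in Ioi (0 : ℝ), GG2 x y δ (Real.exp u, t)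
      = ∫⁻ η : ℝ, ENNReal.ofReal (Real.exp u) * (ENNReal.ofReal (Real.exp (u + η))
        * GG2 x y δ (Real.exp u, Real.exp (u + η))) := by
    intro u
    rw [lint_exp, lintegral_const_mul' _ _ ENNReal.ofReal_ne_top]
    congr 1
    rw [← lintegral_add_left_eq_self _ u]
  simp_rw [e1]
  rw [lintegral_lintegral_swap]
  refine Measurable.aemeasurable ?_
  have m1 : Measurable fun q : ℝ × ℝ => ENNReal.ofReal (Real.exp q.1) :=
    (Real.measurable_exp.comp measurable_fst).ennreal_ofReal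
  have m2 : Measurable fun q : ℝ × ℝ => ENNReal.ofReal (Real.exp (q.1 + q.2)) :=
    (Real.measurable_exp.comp (measurable_fst.add measurable_snd)).ennreal_ofReal
  have m3 : Measurable fun q : ℝ × ℝ => GG2 x y δ (Real.exp q.1, Real.exp (q.1 + q.2)) :=
    (GG2_meas x y δ).comp ((Real.measurable_exp.comp measurable_fst).prodMk
      (Real.measurable_exp.comp (measurable_fst.add measurable_snd)))
  exact m1.mul (m2.mul m3)

/-- The pointwise bound. -/
theorem pt_bound {x b δ σ : ℝ} (hx : 0 < x) (hδx : δ ≤ x) (hσ : 0 ≤ σ)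
    (hb : 0 < b) (u η : ℝ) :
    ENNReal.ofReal (Real.exp u) * (ENNReal.ofReal (Real.exp (u + η))
        * GG2 x (b * x) δ (Real.exp u, Real.exp (u + η)))
      ≤ (Ioc 0 (δ / x)).indicator (fun η => ENNReal.ofReal ((b * x) ^ (2 + 2 * σ) * Real.exp 1
        * (‖Me (u + η) - Me u‖ ^ 2 * Real.exp (-(2 * σ * u))))) η := by
  by_cases hm : (Real.exp u, Real.exp (u + η)) ∈ RG x (b * x) δ
  · obtain ⟨h1, h2, h3, h4⟩ := hm
    simp only at h1 h2 h3 h4
    have hη0 : 0 ≤ η := by
      have := Real.exp_le_exp.1 h3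
      linarith
    rcases hη0.eq_or_lt with h0 | h0
    · have : GG2 x (b * x) δ (Real.exp u, Real.exp (u + η)) = 0 := by
        rw [GG2, indicator_of_mem (show (Real.exp u, Real.exp (u + η)) ∈ RG x (b * x) δ from
          ⟨h1, h2, h3, h4⟩), DD, ← h0, add_zero, sub_self]
        simp
      rw [this, mul_zero, mul_zero]
      exact zero_le
    · have hηx : η ≤ δ / x := by
        rw [le_div_iff₀ hx]
        have h5 : η + 1 ≤ Real.exp η := Real.add_one_le_exp η
        rw [Real.exp_add] at h4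
        have h6 : Real.exp u * (Real.exp η - 1) < δ := by linarith
        have h7 : x * η ≤ Real.exp u * (Real.exp η - 1) := by
          have h8 : η ≤ Real.exp η - 1 := by linarith
          exact mul_le_mul h1 h8 h0.le (Real.exp_pos u).le
        linarith
      have hη1 : η ≤ 1 := hηx.trans ((div_le_one hx).2 hδx)
      rw [indicator_of_mem (show η ∈ Ioc 0 (δ / x) from ⟨h0, hηx⟩), GG2, indicator_of_mem
        (show (Real.exp u, Real.exp (u + η)) ∈ RG x (b * x) δ from ⟨h1, h2, h3, h4⟩), DD,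
        ← ENNReal.ofReal_mul (Real.exp_pos _).le, ← ENNReal.ofReal_mul (Real.exp_pos _).le]
      apply ENNReal.ofReal_le_ofReal
      have e1 : ‖Me (u + η) - Me u‖ ^ 2 = (Mx (Real.exp (u + η)) - Mx (Real.exp u)) ^ 2 := by
        unfold Me
        rw [← Complex.ofReal_sub, Complex.norm_real, Real.norm_eq_abs, sq_abs]
      rw [e1]
      set Q := (Mx (Real.exp (u + η)) - Mx (Real.exp u)) ^ 2 with hQ
      have hQ0 : 0 ≤ Q := sq_nonneg _
      have h9 : Real.exp u * Real.exp (u + η)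
          ≤ (b * x) ^ (2 + 2 * σ) * Real.exp 1 * Real.exp (-(2 * σ * u)) := by
        have h10 : Real.exp ((2 + 2 * σ) * u) ≤ (b * x) ^ (2 + 2 * σ) := by
          rw [mul_comm, Real.exp_mul]
          exact Real.rpow_le_rpow (Real.exp_pos _).le h2.le (by linarith)
        calc Real.exp u * Real.exp (u + η)
            = Real.exp ((2 + 2 * σ) * u) * Real.exp η * Real.exp (-(2 * σ * u)) := by
              rw [← Real.exp_add, ← Real.exp_add, ← Real.exp_add]
              congr 1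
              ring
          _ ≤ _ := by gcongr
      calc Real.exp u * (Real.exp (u + η) * Q) = (Real.exp u * Real.exp (u + η)) * Q := by ring
        _ ≤ ((b * x) ^ (2 + 2 * σ) * Real.exp 1 * Real.exp (-(2 * σ * u))) * Q :=
            mul_le_mul_of_nonneg_right h9 hQ0
        _ = _ := by ring
  · rw [GG2, indicator_of_notMem hm, mul_zero, mul_zero]
    exact zero_le

/-- The mean square of the increments. -/
theorem incr_bound {e b : ℝ} (he : 0 < e) (he1 : e ≤ 1 / 2) (hb : 0 < b) : ∃ C : ℝ, 0 < C ∧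
    ∀ x δ : ℝ, 0 < x → 0 < δ → δ ≤ x → 1 ≤ x * δ →
    ∫⁻ s in Ico x (b * x), ∫⁻ t in Ico s (s + δ), DD s t
      ≤ ENNReal.ofReal (C * x ^ (2 * zetaSup + 4 * e) * δ ^ 2) := by
  obtain ⟨C, hC0, hC⟩ := mean_sq he he1
  set σ : ℝ := zetaSup + e with hσ
  have hΘ' := half_le_zetaSup
  have hσ0 : 0 ≤ σ := by linarith
  refine ⟨b ^ (2 + 2 * σ) * Real.exp 1 * C, by positivity, fun x δ hx hδ hδx hxδ => ?_⟩
  set K : ℝ := (b * x) ^ (2 + 2 * σ) * Real.exp 1 with hK
  have hK0 : 0 ≤ K := by positivity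
  have hq : 0 < δ / x := by positivity
  have hq1 : δ / x ≤ 1 := (div_le_one hx).2 hδx
  rw [lint_GG2 hx, lint_GG2']
  have h1 : ∀ η : ℝ, ∫⁻ u : ℝ, ENNReal.ofReal (Real.exp u) * (ENNReal.ofReal (Real.exp (u + η))
        * GG2 x (b * x) δ (Real.exp u, Real.exp (u + η)))
      ≤ (Ioc 0 (δ / x)).indicator (fun _ => ENNReal.ofReal (K * (C * (δ / x) ^ (1 - e)))) η := by
    intro η
    refine (lintegral_mono fun u => pt_bound hx hδx hσ0 hb u η).trans ?_
    by_cases hη : η ∈ Ioc 0 (δ / x)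
    · simp_rw [indicator_of_mem hη]
      obtain ⟨i1, i2⟩ := hC η hη.1 (hη.2.trans hq1)
      rw [← ofReal_integral_eq_lintegral_ofReal (i1.const_mul K)
        (Eventually.of_forall fun u => by positivity)]
      apply ENNReal.ofReal_le_ofReal
      rw [integral_const_mul]
      refine mul_le_mul_of_nonneg_left (i2.trans ?_) hK0
      refine mul_le_mul_of_nonneg_left ?_ hC0.le
      exact Real.rpow_le_rpow hη.1.le hη.2 (by linarith)
    · simp_rw [indicator_of_notMem hη]
      simp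
  refine (lintegral_mono h1).trans ?_
  rw [lintegral_indicator measurableSet_Ioc, setLIntegral_const, Real.volume_Ioc, sub_zero,
    ← ENNReal.ofReal_mul (by positivity)]
  apply ENNReal.ofReal_le_ofReal
  have e1 : (δ / x) ^ (1 - e) * (δ / x) = δ ^ 2 * δ ^ (-e) * x ^ (e - 2) := by
    have : (δ / x) ^ (1 - e) * (δ / x) = (δ / x) ^ (2 - e) := by
      rw [← Real.rpow_add_one hq.ne']
      congr 1
      ring
    rw [this, Real.div_rpow hδ.le hx.le, div_eq_mul_inv, ← Real.rpow_neg hx.le,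
      ← Real.rpow_natCast δ 2, ← Real.rpow_add hδ]
    congr 2
    · ring
  have e2 : δ ^ (-e) ≤ x ^ e := by
    rw [Real.rpow_neg hδ.le, ← Real.inv_rpow hδ.le]
    refine Real.rpow_le_rpow (by positivity) ?_ he.le
    rw [inv_le_iff_one_le_mul₀ hδ]
    exact hxδ
  have e3 : K = b ^ (2 + 2 * σ) * Real.exp 1 * x ^ (2 + 2 * σ) := by
    rw [hK, Real.mul_rpow hb.le hx.le]
    ring
  calc K * (C * (δ / x) ^ (1 - e)) * (δ / x) = K * C * ((δ / x) ^ (1 - e) * (δ / x)) := by ring
    _ = K * C * (δ ^ 2 * δ ^ (-e) * x ^ (e - 2)) := by rw [e1]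
    _ ≤ K * C * (δ ^ 2 * x ^ e * x ^ (e - 2)) := by gcongr
    _ = b ^ (2 + 2 * σ) * Real.exp 1 * C * (x ^ (2 + 2 * σ) * x ^ e * x ^ (e - 2)) * δ ^ 2 := by
        rw [e3]
        ring
    _ = _ := by
        rw [← Real.rpow_add hx, ← Real.rpow_add hx]
        congr 3
        rw [hσ]
        ring

end

end Pool.Agent.TH301.SM
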