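import Pool.Agent.TH301.SM.C

/-!
The number of intervals on which the Mertens function varies much.
-/

set_option autoImplicit false

open MeasureTheory Set Filter Topology
open Pool.Agent.H295R2
open scoped ENNReal

namespace Pool.Agent.TH301.SM

noncomputable section

theorem abs_Mx_le' (y : ℝ) : |Mx y| ≤ |y| := by
  rcases lt_or_ge y 0 with h | h
  · rw [Mx_of_lt_one (by linarith), abs_zero]
    exact abs_nonneg y
  · rw [abs_of_nonneg h]
    exact abs_Mx_le h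

theorem Mx_lip {s t : ℝ} (hs : 0 ≤ s) (hst : s ≤ t) : |Mx t - Mx s| ≤ t - s + 1 := by
  have h1 : ⌊s⌋₊ ≤ ⌊t⌋₊ := Nat.floor_le_floor hst
  have h2 : Mx t - Mx s = ∑ k ∈ Finset.Ioc ⌊s⌋₊ ⌊t⌋₊, mu k := by
    unfold Mx
    have hd : ∑ k ∈ Finset.Icc 1 ⌊t⌋₊, mu k
        = ∑ k ∈ Finset.Icc 1 ⌊s⌋₊, mu k + ∑ k ∈ Finset.Ioc ⌊s⌋₊ ⌊t⌋₊, mu k := by
      rw [← Finset.sum_union]
      · congr 1
        ext k
        simp only [Finset.mem_union, Finset.mem_Icc, Finset.mem_Ioc]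
        omega
      · rw [Finset.disjoint_left]
        intro k hk1 hk2
        simp only [Finset.mem_Icc, Finset.mem_Ioc] at hk1 hk2
        omega
    rw [hd]
    ring
  rw [h2]
  refine (Finset.abs_sum_le_sum_abs _ _).trans ((Finset.sum_le_sum fun k _ => abs_mu_le k).trans ?_)
  rw [Finset.sum_const, Nat.card_Ioc, nsmul_eq_mul, mul_one, Nat.cast_sub h1]
  have h3 := Nat.floor_le (hs.trans hst)
  have h4 := Nat.lt_floor_add_one s
  linarith

theorem Mx_sub_ii (c a b : ℝ) : IntervalIntegrable (fun t => Mx t - c) volume a b := by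
  have h : IntervalIntegrable (fun t : ℝ => |t| + |c|) volume a b :=
    (continuous_abs.add continuous_const).intervalIntegrable a b
  refine h.mono_fun' ((Mx_measurable.sub_const c).aestronglyMeasurable) ?_
  refine Eventually.of_forall fun t => ?_
  show ‖Mx t - c‖ ≤ |t| + |c|
  rw [Real.norm_eq_abs]
  exact (abs_sub _ _).trans (add_le_add (abs_Mx_le' t) le_rfl)

theorem Mx_sub_sq_ii (c a b : ℝ) : IntervalIntegrable (fun t => (Mx t - c) ^ 2) volume a b := by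
  have h : IntervalIntegrable (fun t : ℝ => (|t| + |c|) ^ 2) volume a b :=
    ((continuous_abs.add continuous_const).pow 2).intervalIntegrable a b
  refine h.mono_fun' (((Mx_measurable.sub_const c).pow_const 2).aestronglyMeasurable) ?_
  refine Eventually.of_forall fun t => ?_
  show ‖(Mx t - c) ^ 2‖ ≤ (|t| + |c|) ^ 2
  rw [Real.norm_eq_abs, abs_pow]
  exact pow_le_pow_left₀ (abs_nonneg _) ((abs_sub _ _).trans (add_le_add (abs_Mx_le' t) le_rfl)) 2

theorem Mx_ii (a b : ℝ) : IntervalIntegrable Mx volume a b := by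
  have := Mx_sub_ii 0 a b
  simpa using this

/-- The mean value over `[y, y + δ]`. -/
def AV (y δ : ℝ) : ℝ := (∫ s in y..(y + δ), Mx s) / δ

theorem jensen (c y : ℝ) {δ : ℝ} (hδ : 0 < δ) :
    (AV y δ - c) ^ 2 * δ ≤ ∫ s in y..(y + δ), (Mx s - c) ^ 2 := by
  set A := AV y δ with hA
  have h1 : ∫ s in y..(y + δ), Mx s = A * δ := by
    rw [hA, AV, div_mul_cancel₀ _ hδ.ne']
  have h2 : 0 ≤ ∫ s in y..(y + δ), (Mx s - A) ^ 2 :=
    intervalIntegral.integral_nonneg (by linarith) fun s _ => sq_nonneg _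
  have h3 : ∫ s in y..(y + δ), (Mx s - c) ^ 2
      = (∫ s in y..(y + δ), (Mx s - A) ^ 2) + ∫ s in y..(y + δ),
        (2 * (A - c) * (Mx s - A) + (A - c) ^ 2) := by
    rw [← intervalIntegral.integral_add (Mx_sub_sq_ii A _ _)
      (((Mx_sub_ii A _ _).const_mul _).add intervalIntegrable_const)]
    refine intervalIntegral.integral_congr fun s _ => ?_
    ring
  have h4 : ∫ s in y..(y + δ), (2 * (A - c) * (Mx s - A) + (A - c) ^ 2) = (A - c) ^ 2 * δ := by
    rw [intervalIntegral.integral_add ((Mx_sub_ii A _ _).const_mul _) intervalIntegrable_const,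
      intervalIntegral.integral_const_mul, intervalIntegral.integral_sub (Mx_ii _ _)
      intervalIntegrable_const, h1, intervalIntegral.integral_const,
      intervalIntegral.integral_const, smul_eq_mul, smul_eq_mul]
    ring
  rw [h3, h4]
  linarith

theorem jensen' (c y : ℝ) {δ : ℝ} (hδ : 0 < δ) :
    ENNReal.ofReal ((AV y δ - c) ^ 2) * ENNReal.ofReal δ
      ≤ ∫⁻ s in Ico y (y + δ), ENNReal.ofReal ((Mx s - c) ^ 2) := by
  rw [← ENNReal.ofReal_mul (sq_nonneg _)]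
  have hi : IntegrableOn (fun s => (Mx s - c) ^ 2) (Ico y (y + δ)) := by
    rw [← integrableOn_Icc_iff_integrableOn_Ico]
    exact (intervalIntegrable_iff_integrableOn_Icc_of_le (by linarith)).1 (Mx_sub_sq_ii c _ _)
  rw [← ofReal_integral_eq_lintegral_ofReal hi (Eventually.of_forall fun s => sq_nonneg _)]
  apply ENNReal.ofReal_le_ofReal
  refine (jensen c y hδ).trans (le_of_eq ?_)
  rw [intervalIntegral.integral_of_le (by linarith), integral_Ico_eq_integral_Ioo,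
    integral_Ioc_eq_integral_Ioo]

/-- The inner integral. -/
def Ps (ρ s : ℝ) : ℝ≥0∞ := ∫⁻ t in Ico s (s + ρ), DD s t

theorem jensen2 {y δ p ℓ ρ : ℝ} (hδ : 0 < δ) (hℓ : 0 < ℓ) (h1 : y + δ ≤ p) (h2 : p + ℓ ≤ y + ρ) :
    ENNReal.ofReal ((AV p ℓ - AV y δ) ^ 2 * (δ * ℓ)) ≤ ∫⁻ s in Ico y (y + δ), Ps ρ s := by
  have h3 := jensen' (AV p ℓ) y hδ
  have h4 : ∫⁻ s in Ico y (y + δ), ENNReal.ofReal ((Mx s - AV p ℓ) ^ 2) * ENNReal.ofReal ℓ
      ≤ ∫⁻ s in Ico y (y + δ), Ps ρ s := by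
    refine setLIntegral_mono' measurableSet_Ico fun s hs => ?_
    have h5 := jensen' (Mx s) p hℓ
    have e : (Mx s - AV p ℓ) ^ 2 = (AV p ℓ - Mx s) ^ 2 := by ring
    rw [e]
    refine h5.trans ?_
    refine lintegral_mono_set fun t ht => ?_
    exact ⟨by linarith [hs.2, ht.1], by linarith [hs.1, ht.2]⟩
  rw [lintegral_mul_const' _ _ ENNReal.ofReal_ne_top] at h4
  refine le_trans ?_ h4
  have e : (AV p ℓ - AV y δ) ^ 2 = (AV y δ - AV p ℓ) ^ 2 := by ring
  rw [e, ← mul_assoc, ENNReal.ofReal_mul (by positivity), ENNReal.ofReal_mul (sq_nonneg _)]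
  gcongr

theorem sum_adj (Ψ : ℝ → ℝ≥0∞) (x : ℝ) {G : ℝ} (hG : 0 ≤ G) (N : ℕ) :
    ∑ j ∈ Finset.range N, ∫⁻ s in Ico (x + j * G) (x + (j + 1) * G), Ψ s
      = ∫⁻ s in Ico x (x + N * G), Ψ s := by
  induction N with
  | zero => simp
  | succ n ih =>
    rw [Finset.sum_range_succ, ih, ← lintegral_union measurableSet_Ico]
    · rw [Ico_union_Ico_eq_Ico]
      · push_cast
        rfl
      · have : 0 ≤ (n : ℝ) * G := by positivity
        linarith
      · linarith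
    · rw [Set.disjoint_left]
      intro s h1 h2
      exact absurd h1.2 (not_lt.2 h2.1)

theorem sum_overlap (Ψ : ℝ → ℝ≥0∞) {x G δ : ℝ} (hG : 0 ≤ G) (hδG : δ ≤ G) (N : ℕ)
    (y : ℕ → ℝ) (hy : ∀ j ∈ Finset.range N, x + j * G ≤ y j ∧ y j ≤ x + (j + 1) * G) :
    ∑ j ∈ Finset.range N, ∫⁻ s in Ico (y j) (y j + δ), Ψ s
      ≤ 2 * ∫⁻ s in Ico x (x + (N + 1) * G), Ψ s := by
  have h1 : ∀ j ∈ Finset.range N, ∫⁻ s in Ico (y j) (y j + δ), Ψ s
      ≤ (∫⁻ s in Ico (x + j * G) (x + (j + 1) * G), Ψ s)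
        + ∫⁻ s in Ico (x + (j + 1 : ℕ) * G) (x + ((j + 1 : ℕ) + 1) * G), Ψ s := by
    intro j hj
    obtain ⟨h2, h3⟩ := hy j hj
    refine le_trans (lintegral_mono_set ?_) (lintegral_union_le _ _ _)
    intro s hs
    rcases lt_or_ge s (x + (j + 1) * G) with h | h
    · exact Or.inl ⟨h2.trans hs.1, h⟩
    · refine Or.inr ⟨by push_cast; exact h, ?_⟩
      push_cast
      linarith [hs.2]
  refine (Finset.sum_le_sum h1).trans ?_
  rw [Finset.sum_add_distrib, sum_adj Ψ x hG N, two_mul]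
  have h4 : ∫⁻ s in Ico x (x + N * G), Ψ s ≤ ∫⁻ s in Ico x (x + (N + 1) * G), Ψ s := by
    refine lintegral_mono_set (Ico_subset_Ico_right ?_)
    linarith
  have h5 : ∑ j ∈ Finset.range N,
      ∫⁻ s in Ico (x + (j + 1 : ℕ) * G) (x + ((j + 1 : ℕ) + 1) * G), Ψ s
      ≤ ∫⁻ s in Ico x (x + (N + 1) * G), Ψ s := by
    have h6 := sum_adj Ψ x hG (N + 1)
    rw [Finset.sum_range_succ'] at h6
    push_cast at h6
    rw [← h6]
    push_cast
    exact le_self_add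
  exact add_le_add h4 h5

/-- The data of the mean square bound. -/
def MS (x b E C : ℝ) : Prop := ∀ δ : ℝ, 0 < δ → δ ≤ x → 1 ≤ x * δ →
  ∫⁻ s in Ico x (b * x), Ps δ s ≤ ENNReal.ofReal (C * x ^ E * δ ^ 2)

theorem step {x b E C G δ ℓ ρ : ℝ} (hms : MS x b E C) (hx : 0 < x) (hC : 0 ≤ C) (hG : 0 ≤ G)
    (hδ : 0 < δ) (hδG : δ ≤ G) (hℓ : 0 < ℓ) (hρ : 0 < ρ) (hρx : ρ ≤ x) (hρ1 : 1 ≤ x * ρ) (N : ℕ)
    (hN : x + (N + 1) * G ≤ b * x) (y p : ℕ → ℝ)
    (hy : ∀ j ∈ Finset.range N, x + j * G ≤ y j ∧ y j ≤ x + (j + 1) * G)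
    (hp : ∀ j ∈ Finset.range N, y j + δ ≤ p j ∧ p j + ℓ ≤ y j + ρ) :
    ∑ j ∈ Finset.range N, (AV (p j) ℓ - AV (y j) δ) ^ 2 * (δ * ℓ) ≤ 2 * (C * x ^ E * ρ ^ 2) := by
  have h1 : ENNReal.ofReal (∑ j ∈ Finset.range N, (AV (p j) ℓ - AV (y j) δ) ^ 2 * (δ * ℓ))
      ≤ ENNReal.ofReal (2 * (C * x ^ E * ρ ^ 2)) := by
    rw [ENNReal.ofReal_sum_of_nonneg fun j _ => by positivity]
    refine (Finset.sum_le_sum fun j hj => jensen2 hδ hℓ (hp j hj).1 (hp j hj).2).trans ?_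
    refine (sum_overlap (Ps ρ) hG hδG N y hy).trans ?_
    rw [ENNReal.ofReal_mul (by norm_num), ENNReal.ofReal_ofNat]
    gcongr
    refine (lintegral_mono_set (Ico_subset_Ico_right hN)).trans (hms ρ hρ hρx hρ1)
  exact (ENNReal.ofReal_le_ofReal_iff (by positivity)).1 h1

theorem AV_half (y : ℝ) {δ : ℝ} (hδ : 0 < δ) :
    AV y (2 * δ) - AV y δ = (AV (y + δ) δ - AV y δ) / 2 := by
  unfold AV
  have h : ∫ s in y..(y + 2 * δ), Mx s = (∫ s in y..(y + δ), Mx s)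
      + ∫ s in (y + δ)..(y + δ + δ), Mx s := by
    rw [intervalIntegral.integral_add_adjacent_intervals (Mx_ii _ _) (Mx_ii _ _)]
    congr 1
    ring
  rw [h]
  field_simp
  ring

theorem AV_near {y δ : ℝ} (hy : 0 ≤ y) (hδ : 0 < δ) : |Mx y - AV y δ| ≤ δ + 1 := by
  have h1 : Mx y - AV y δ = (∫ s in y..(y + δ), (Mx y - Mx s)) / δ := by
    unfold AV
    rw [intervalIntegral.integral_sub intervalIntegrable_const (Mx_ii _ _),
      intervalIntegral.integral_const, smul_eq_mul]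
    field_simp
    ring
  rw [h1, abs_div, abs_of_pos hδ, div_le_iff₀ hδ]
  have h2 : ‖∫ s in y..(y + δ), (Mx y - Mx s)‖ ≤ (δ + 1) * |y + δ - y| := by
    refine intervalIntegral.norm_integral_le_of_norm_le_const fun s hs => ?_
    rw [uIoc_of_le (by linarith)] at hs
    rw [Real.norm_eq_abs, abs_sub_comm]
    have := Mx_lip hy hs.1.le
    linarith [hs.2]
  rw [Real.norm_eq_abs] at h2
  have e : |y + δ - y| = δ := by
    rw [add_sub_cancel_left, abs_of_pos hδ]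
  rwa [e] at h2

end

end Pool.Agent.TH301.SM
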