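import Pool.Agent.TH301.SM.D

/-!
The number of intervals on which the Mertens function varies much.
-/

set_option autoImplicit false

open MeasureTheory Set Filter Topology
open Pool.Agent.H295R2
open scoped ENNReal

namespace Pool.Agent.TH301.SM

noncomputable section

theorem chain_bound {b E C x G : ℝ} (hms : MS x b E C) (hC : 0 ≤ C) (hG : 1 ≤ G)
    (h3G : 3 * G ≤ x) (N : ℕ) (hN : x + (N + 1) * G ≤ b * x) (y : ℕ → ℝ)
    (hy : ∀ j ∈ Finset.range N, x + j * G ≤ y j ∧ y j ≤ x + (j + 1) * G) (K : ℕ)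
    (hK : (2 : ℝ) ^ K ≤ G) (hK2 : G < 2 ^ (K + 1)) (B : Finset ℕ) (hB : B ⊆ Finset.range N) :
    ∑ j ∈ B, (Mx (y j) - AV (x + (j + 2) * G) G) ^ 2
      ≤ 27 * B.card + (6 * K ^ 2 + 54) * (C * x ^ E) := by
  have hx : 0 < x := by linarith
  have hG0 : 0 < G := by linarith
  set a : ℕ → ℕ → ℝ := fun k j => AV (y j) (G / 2 ^ k) with ha
  set X : ℝ := C * x ^ E with hX
  have hX0 : 0 ≤ X := by positivity
  -- one step of the chain
  have h1 : ∀ k ∈ Finset.range K, ∑ j ∈ Finset.range N, (a k j - a (k + 1) j) ^ 2 ≤ 2 * X := by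
    intro k hk
    rw [Finset.mem_range] at hk
    set δ : ℝ := G / 2 ^ (k + 1) with hδ
    have hδ0 : 0 < δ := by positivity
    have hδk : G / 2 ^ k = 2 * δ := by
      rw [hδ, pow_succ]
      field_simp
    have hδ1 : 1 ≤ δ := by
      rw [hδ, one_le_div (by positivity)]
      refine le_trans ?_ hK
      exact pow_le_pow_right₀ (by norm_num) (by omega)
    have hδG : 2 * δ ≤ G := by
      rw [← hδk]
      exact div_le_self hG0.le (one_le_pow₀ (by norm_num))
    have hs := step hms hx hC hG0.le hδ0 (by linarith) hδ0 (show 0 < 2 * δ by linarith)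
      (by linarith) (by nlinarith) N hN y (fun j => y j + δ) hy
      (fun j _ => ⟨le_rfl, by linarith⟩)
    have e : ∀ j, (a k j - a (k + 1) j) ^ 2 = (AV (y j + δ) δ - AV (y j) δ) ^ 2 / 4 := by
      intro j
      simp only [ha]
      rw [← hδ, hδk, AV_half (y j) hδ0]
      ring
    simp_rw [e]
    rw [← Finset.sum_div]
    rw [← Finset.sum_mul] at hs
    have h2 : (∑ j ∈ Finset.range N, (AV (y j + δ) δ - AV (y j) δ) ^ 2) * (δ * δ)
        ≤ 8 * X * (δ * δ) := by
      refine hs.trans (le_of_eq ?_)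
      rw [hX]
      ring
    have h3 := le_of_mul_le_mul_right h2 (by positivity)
    linarith
  -- the last step
  have h2 : ∑ j ∈ Finset.range N, (a 0 j - AV (x + (j + 2) * G) G) ^ 2 ≤ 18 * X := by
    have hs := step hms hx hC hG0.le hG0 le_rfl hG0 (show 0 < 3 * G by linarith) h3G
      (by nlinarith) N hN y (fun j => x + (j + 2) * G) hy (fun j hj => ?_)
    · rw [← Finset.sum_mul] at hs
      have e : ∀ j : ℕ, (a 0 j - AV (x + (j + 2) * G) G) ^ 2
          = (AV (x + (j + 2) * G) G - AV (y j) G) ^ 2 := by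
        intro j
        simp only [ha, pow_zero, div_one]
        ring
      simp_rw [e]
      have h2 : (∑ j ∈ Finset.range N, (AV (x + (j + 2) * G) G - AV (y j) G) ^ 2) * (G * G)
          ≤ 18 * X * (G * G) := by
        refine hs.trans (le_of_eq ?_)
        rw [hX]
        ring
      exact le_of_mul_le_mul_right h2 (by positivity)
    · obtain ⟨h3, h4⟩ := hy j hj
      constructor <;> linarith
  -- the first step
  have h3 : ∀ j ∈ B, |Mx (y j) - a K j| ≤ 3 := by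
    intro j hj
    have hyj := (hy j (hB hj)).1
    have hy0 : 0 ≤ y j := by
      have : 0 ≤ (j : ℝ) * G := by positivity
      linarith
    refine (AV_near hy0 (by positivity)).trans ?_
    have : G / 2 ^ K < 2 := by
      rw [div_lt_iff₀ (by positivity)]
      rw [pow_succ] at hK2
      linarith
    linarith
  have h4 : ∀ j ∈ B, (Mx (y j) - AV (x + (j + 2) * G) G) ^ 2
      ≤ 27 + 3 * (K * ∑ k ∈ Finset.range K, (a k j - a (k + 1) j) ^ 2)
        + 3 * (a 0 j - AV (x + (j + 2) * G) G) ^ 2 := by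
    intro j hj
    have h5 := h3 j hj
    have h6 : (Mx (y j) - a K j) ^ 2 ≤ 9 := by
      rw [← sq_abs]
      nlinarith [abs_nonneg (Mx (y j) - a K j)]
    have h7 : ∑ k ∈ Finset.range K, (a k j - a (k + 1) j) = a 0 j - a K j :=
      Finset.sum_range_sub' (fun k => a k j) K
    have h8 := sq_sum_le_card_mul_sum_sq (s := Finset.range K)
      (f := fun k => a k j - a (k + 1) j)
    rw [h7, Finset.card_range] at h8
    set P := Mx (y j) - a K j
    set Q := a 0 j - a K j with hQ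
    set R := a 0 j - AV (x + (j + 2) * G) G with hR
    have e : Mx (y j) - AV (x + (j + 2) * G) G = P - Q + R := by ring
    rw [e]
    nlinarith [sq_nonneg (P + Q), sq_nonneg (P - R), sq_nonneg (Q + R)]
  refine (Finset.sum_le_sum h4).trans ?_
  rw [Finset.sum_add_distrib, Finset.sum_add_distrib, Finset.sum_const, nsmul_eq_mul,
    ← Finset.mul_sum, ← Finset.mul_sum, ← Finset.mul_sum]
  have h5 : ∑ j ∈ B, ∑ k ∈ Finset.range K, (a k j - a (k + 1) j) ^ 2 ≤ K * (2 * X) := by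
    rw [Finset.sum_comm]
    calc ∑ k ∈ Finset.range K, ∑ j ∈ B, (a k j - a (k + 1) j) ^ 2
        ≤ ∑ k ∈ Finset.range K, 2 * X := by
          refine Finset.sum_le_sum fun k hk => (Finset.sum_le_sum_of_subset_of_nonneg hB
            fun _ _ _ => sq_nonneg _).trans (h1 k hk)
      _ = K * (2 * X) := by rw [Finset.sum_const, Finset.card_range, nsmul_eq_mul]
  have h6 : ∑ j ∈ B, (a 0 j - AV (x + (j + 2) * G) G) ^ 2 ≤ 18 * X :=
    (Finset.sum_le_sum_of_subset_of_nonneg hB fun _ _ _ => sq_nonneg _).trans h2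
  have h7 : 3 * ((K : ℝ) * ∑ j ∈ B, ∑ k ∈ Finset.range K, (a k j - a (k + 1) j) ^ 2)
      ≤ 3 * ((K : ℝ) * (K * (2 * X))) := by gcongr
  nlinarith

theorem bad_count {b E C x G H : ℝ} (hms : MS x b E C) (hC : 0 ≤ C) (hG : 1 ≤ G)
    (h3G : 3 * G ≤ x) (N : ℕ) (hN : x + (N + 1) * G ≤ b * x) (hH : 8 ≤ H) (B : Finset ℕ)
    (hB : B ⊆ Finset.range N)
    (hbad : ∀ j ∈ B, ∃ y, x + j * G ≤ y ∧ y ≤ x + (j + 1) * G ∧
      H < |Mx y - AV (x + (j + 2) * G) G|) :
    (B.card : ℝ) * H ^ 2 ≤ 108 * C * (1 + Real.log x) ^ 2 * x ^ E := by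
  have hx : 0 < x := by linarith
  have hG0 : 0 < G := by linarith
  have hex : ∀ j : ℕ, ∃ y, (x + j * G ≤ y ∧ y ≤ x + (j + 1) * G) ∧
      (j ∈ B → H < |Mx y - AV (x + (j + 2) * G) G|) := by
    intro j
    by_cases hj : j ∈ B
    · obtain ⟨y, h1, h2, h3⟩ := hbad j hj
      exact ⟨y, ⟨h1, h2⟩, fun _ => h3⟩
    · exact ⟨x + j * G, ⟨le_rfl, by linarith⟩, fun h => absurd h hj⟩
  choose y hy1 hy2 using hex
  set K : ℕ := Nat.log 2 ⌊G⌋₊ with hK
  have hfl : ⌊G⌋₊ ≠ 0 := by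
    have := (Nat.one_le_floor_iff G).2 hG
    omega
  have hK1 : (2 : ℝ) ^ K ≤ G := by
    have h1 : 2 ^ K ≤ ⌊G⌋₊ := Nat.pow_log_le_self 2 hfl
    have h2 : ((2 ^ K : ℕ) : ℝ) ≤ (⌊G⌋₊ : ℝ) := by exact_mod_cast h1
    push_cast at h2
    exact h2.trans (Nat.floor_le hG0.le)
  have hK2 : G < 2 ^ (K + 1) := by
    have h1 : ⌊G⌋₊ < 2 ^ (K + 1) := Nat.lt_pow_succ_log_self (by norm_num) _
    have h2 : ((⌊G⌋₊ + 1 : ℕ) : ℝ) ≤ ((2 ^ (K + 1) : ℕ) : ℝ) := by exact_mod_cast h1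
    push_cast at h2
    exact (Nat.lt_floor_add_one G).trans_le h2
  have hc := chain_bound hms hC hG h3G N hN y (fun j _ => hy1 j) K hK1 hK2 B hB
  have h1 : (B.card : ℝ) * H ^ 2 ≤ ∑ j ∈ B, (Mx (y j) - AV (x + (j + 2) * G) G) ^ 2 := by
    rw [← nsmul_eq_mul, ← Finset.sum_const]
    refine Finset.sum_le_sum fun j hj => ?_
    rw [← sq_abs (Mx (y j) - _)]
    exact pow_le_pow_left₀ (by linarith) (hy2 j hj).le 2
  have hlog : 0 ≤ Real.log x := Real.log_nonneg (by linarith)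
  have hKlog : (K : ℝ) ≤ 2 * Real.log x := by
    have h2 : (K : ℝ) * Real.log 2 ≤ Real.log x := by
      rw [← Real.log_pow]
      exact Real.log_le_log (by positivity) (by linarith)
    have h3 : 1 / 2 ≤ Real.log 2 := by
      have := Real.log_two_gt_d9
      linarith
    nlinarith [(Nat.cast_nonneg K : (0 : ℝ) ≤ K)]
  set X : ℝ := C * x ^ E with hX
  have hX0 : 0 ≤ X := by positivity
  have hH2 : 64 ≤ H ^ 2 := by nlinarith
  have h2 : 27 * (B.card : ℝ) ≤ (B.card : ℝ) * H ^ 2 / 2 := by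
    have : (0 : ℝ) ≤ B.card := Nat.cast_nonneg _
    nlinarith
  have h3 : (B.card : ℝ) * H ^ 2 ≤ (12 * K ^ 2 + 108) * X := by linarith
  have h4 : 12 * (K : ℝ) ^ 2 + 108 ≤ 108 * (1 + Real.log x) ^ 2 := by
    have : (K : ℝ) ^ 2 ≤ (2 * Real.log x) ^ 2 := pow_le_pow_left₀ (Nat.cast_nonneg _) hKlog 2
    nlinarith
  calc (B.card : ℝ) * H ^ 2 ≤ (12 * K ^ 2 + 108) * X := h3
    _ ≤ 108 * (1 + Real.log x) ^ 2 * X := mul_le_mul_of_nonneg_right h4 hX0
    _ = _ := by rw [hX]; ring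

end

end Pool.Agent.TH301.SM
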