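import Pool.Agent.TH301.SM.E

/-!
The count of the intervals on which the Mertens function is large.
-/

set_option autoImplicit false

open MeasureTheory Set Filter Topology
open Pool.Agent.H295R2
open scoped ENNReal

namespace Pool.Agent.TH301.SM

noncomputable section

/-- The indices of the intervals of length `G` in the window of length `W` on which
`|M - a| > H`. -/
def Gd (x G W a H : ℝ) : Set ℕ :=
  {j : ℕ | (j + 1) * G ≤ W ∧ ∀ y ∈ Icc (x + j * G) (x + (j + 1) * G), H < |Mx y - a|}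

theorem Gd_finite {x G W a H : ℝ} (hG : 0 < G) : (Gd x G W a H).Finite := by
  refine (Finset.finite_toSet (Finset.range (⌈W / G⌉₊ + 1))).subset fun j hj => ?_
  have h1 : ((j : ℝ) + 1) ≤ W / G := (le_div_iff₀ hG).2 hj.1
  have h2 := Nat.le_ceil (W / G)
  simp only [Finset.coe_range, mem_Iio]
  have h3 : ((j + 1 : ℕ) : ℝ) ≤ (⌈W / G⌉₊ : ℝ) := by
    push_cast
    linarith
  have h4 : j + 1 ≤ ⌈W / G⌉₊ := by exact_mod_cast h3
  omega

open Classical in
theorem core {b E C x G W H H' V0 a : ℝ} (hms : MS x b E C) (hC : 0 ≤ C) (hG : 1 ≤ G)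
    (h3G : 3 * G ≤ x) (hW : 0 ≤ W) (hN : x + W + G ≤ b * x) (hH : 8 ≤ H) (hH' : H' ≤ H)
    (hV : ∀ y, x ≤ y → y ≤ x + W → |Mx y| ≤ V0) (ha : |a| ≤ 2 * V0) :
    ∃ nb : ℝ, nb * H ^ 2 ≤ 108 * C * (1 + Real.log x) ^ 2 * x ^ E ∧
      ∫ y in x..(x + W), |Mx y - a|
        ≤ 3 * H * W + (nb + (Gd x G W a H').ncard + 1) * (3 * V0 * G) := by
  have hG0 : 0 < G := by linarith
  have hx : 0 < x := by linarith
  have hV0 : 0 ≤ V0 := (abs_nonneg _).trans (hV x le_rfl (by linarith))
  set N : ℕ := ⌊W / G⌋₊ with hNdef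
  have hNG : (N : ℝ) * G ≤ W := by
    have := Nat.floor_le (show 0 ≤ W / G by positivity)
    rwa [le_div_iff₀ hG0] at this
  have hNG2 : W < (N + 1) * G := by
    have := Nat.lt_floor_add_one (W / G)
    rwa [div_lt_iff₀ hG0] at this
  set R : ℕ → ℝ := fun j => AV (x + (j + 2) * G) G with hR
  set B : Finset ℕ := (Finset.range N).filter fun j =>
    ∃ y, x + j * G ≤ y ∧ y ≤ x + (j + 1) * G ∧ H < |Mx y - R j| with hB
  set N1 : Finset ℕ := (Finset.range N).filter fun j => j ∉ B ∧ 2 * H < |R j - a| with hN1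
  have hbad := bad_count hms hC hG h3G N (by linarith) hH B (Finset.filter_subset _ _)
    fun j hj => (Finset.mem_filter.1 hj).2
  refine ⟨B.card, hbad, ?_⟩
  -- the index `j` is less than `N`
  have hjN : ∀ j ∈ Finset.range N, ((j : ℝ) + 1) * G ≤ W := by
    intro j hj
    have h1 : ((j + 1 : ℕ) : ℝ) ≤ N := by exact_mod_cast Finset.mem_range.1 hj
    push_cast at h1
    exact (mul_le_mul_of_nonneg_right h1 hG0.le).trans hNG
  have hgood : ∀ j ∈ Finset.range N, j ∉ B → ∀ y, x + j * G ≤ y → y ≤ x + (j + 1) * G →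
      |Mx y - R j| ≤ H := by
    intro j hj hjB y h1 h2
    by_contra h3
    exact hjB (Finset.mem_filter.2 ⟨hj, y, h1, h2, not_le.1 h3⟩)
  have hsub : (N1 : Set ℕ) ⊆ Gd x G W a H' := by
    intro j hj
    have h1 := Finset.mem_filter.1 (Finset.mem_coe.1 hj)
    refine ⟨hjN j h1.1, fun y hy => ?_⟩
    have h2 := hgood j h1.1 h1.2.1 y hy.1 hy.2
    have h3 := h1.2.2
    have h4 : |R j - a| ≤ |Mx y - R j| + |Mx y - a| := by
      rw [abs_sub_comm (Mx y) (R j)]
      exact abs_sub_le _ _ _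
    linarith
  have hcard : (N1.card : ℝ) ≤ (Gd x G W a H').ncard := by
    have h1 := Set.ncard_le_ncard hsub (Gd_finite hG0)
    rw [Set.ncard_coe_finset] at h1
    exact_mod_cast h1
  -- the integral
  have hii : ∀ s t : ℝ, IntervalIntegrable (fun y => |Mx y - a|) volume s t := fun s t =>
    (Mx_sub_ii a s t).abs
  have hb1 : ∀ y, x ≤ y → y ≤ x + W → |Mx y - a| ≤ 3 * V0 := by
    intro y h1 h2
    have := hV y h1 h2
    calc |Mx y - a| ≤ |Mx y| + |a| := abs_sub _ _
      _ ≤ 3 * V0 := by linarith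
  have hint : ∀ {s t D : ℝ}, s ≤ t → (∀ y, s ≤ y → y ≤ t → |Mx y - a| ≤ D) →
      ∫ y in s..t, |Mx y - a| ≤ D * (t - s) := by
    intro s t D hst h
    have h1 : ∫ y in s..t, |Mx y - a| ≤ ∫ _ in s..t, D :=
      intervalIntegral.integral_mono_on hst (hii s t) intervalIntegrable_const
        fun y hy => h y hy.1 hy.2
    rw [intervalIntegral.integral_const, smul_eq_mul] at h1
    linarith
  have hsplit : ∫ y in x..(x + W), |Mx y - a|
      = ∑ j ∈ Finset.range N, (∫ y in (x + (j : ℕ) * G)..(x + ((j + 1 : ℕ) : ℝ) * G), |Mx y - a|)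
        + ∫ y in (x + N * G)..(x + W), |Mx y - a| := by
    rw [intervalIntegral.sum_integral_adjacent_intervals (a := fun j : ℕ => x + (j : ℝ) * G)
      (fun j _ => hii _ _)]
    simp only [Nat.cast_zero, zero_mul, add_zero]
    rw [intervalIntegral.integral_add_adjacent_intervals (hii _ _) (hii _ _)]
  rw [hsplit]
  have hj : ∀ j ∈ Finset.range N,
      (∫ y in (x + (j : ℕ) * G)..(x + ((j + 1 : ℕ) : ℝ) * G), |Mx y - a|)
      ≤ 3 * H * G + if j ∈ B ∪ N1 then 3 * V0 * G else 0 := by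
    intro j hjr
    have h0 : 0 ≤ (j : ℝ) * G := by positivity
    have h1 := hjN j hjr
    by_cases hu : j ∈ B ∪ N1
    · rw [if_pos hu]
      have h2 := hint (s := x + (j : ℕ) * G) (t := x + ((j + 1 : ℕ) : ℝ) * G) (D := 3 * V0)
        (by push_cast; linarith) (fun y hy1 hy2 => hb1 y (by linarith) (by
          push_cast at hy2
          linarith))
      push_cast at h2 ⊢
      have h3 : 0 ≤ 3 * H * G := by positivity
      linarith
    · rw [if_neg hu, add_zero]
      rw [Finset.mem_union, not_or] at hu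
      have h4 : |R j - a| ≤ 2 * H := by
        by_contra h5
        exact hu.2 (Finset.mem_filter.2 ⟨hjr, hu.1, not_le.1 h5⟩)
      have h2 := hint (s := x + (j : ℕ) * G) (t := x + ((j + 1 : ℕ) : ℝ) * G) (D := 3 * H)
        (by push_cast; linarith) (fun y hy1 hy2 => by
          push_cast at hy2
          have h5 := hgood j hjr hu.1 y hy1 hy2
          have h6 : |Mx y - a| ≤ |Mx y - R j| + |R j - a| := abs_sub_le _ _ _
          linarith)
      push_cast at h2 ⊢
      linarith
  refine (add_le_add (Finset.sum_le_sum hj) (hint (D := 3 * V0) (by linarith)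
    fun y h1 h2 => hb1 y (by
      have : 0 ≤ (N : ℝ) * G := by positivity
      linarith) h2)).trans ?_
  rw [Finset.sum_add_distrib, Finset.sum_const, Finset.card_range, nsmul_eq_mul,
    ← Finset.sum_filter, Finset.sum_const, nsmul_eq_mul]
  have h5 : (((Finset.range N).filter fun j => j ∈ B ∪ N1).card : ℝ) ≤ B.card + N1.card := by
    have h6 : (Finset.range N).filter (fun j => j ∈ B ∪ N1) ⊆ B ∪ N1 := fun j hj =>
      (Finset.mem_filter.1 hj).2
    have h7 := (Finset.card_le_card h6).trans (Finset.card_union_le B N1)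
    exact_mod_cast h7
  have h6 : 0 ≤ 3 * V0 * G := by positivity
  have h7 : (((Finset.range N).filter fun j => j ∈ B ∪ N1).card : ℝ) * (3 * V0 * G)
      ≤ (B.card + (Gd x G W a H').ncard) * (3 * V0 * G) :=
    mul_le_mul_of_nonneg_right (by linarith) h6
  have h8 : 3 * V0 * (x + W - (x + N * G)) ≤ 3 * V0 * G := by
    refine mul_le_mul_of_nonneg_left ?_ (by positivity)
    linarith
  have h9 : (N : ℝ) * (3 * H * G) ≤ 3 * H * W := by
    have : 3 * H * ((N : ℝ) * G) ≤ 3 * H * W := mul_le_mul_of_nonneg_left hNG (by linarith)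
    linarith
  linarith

end

end Pool.Agent.TH301.SM
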