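import Pool.Agent.TH301.SM.F
import Pool.Agent.W190.A16

/-!
Long intervals on which the Mertens function is large.
-/

set_option autoImplicit false

open MeasureTheory Set Filter Topology
open Pool.Agent.H295R2
open scoped ENNReal

namespace Pool.Agent.TH301.SM

noncomputable section

theorem ev_log (s K : ℝ) {r : ℝ} (hr : 0 < r) : ∀ᶠ x : ℝ in atTop, K * Real.log x ^ s ≤ x ^ r := by
  have h := (isLittleO_log_rpow_rpow_atTop s hr).bound (c := 1 / (|K| + 1)) (by positivity)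
  filter_upwards [h, eventually_ge_atTop (Real.exp 1)] with x hx hx1
  have hx0 : 0 < x := (Real.exp_pos 1).trans_le hx1
  have hl : 1 ≤ Real.log x := by
    rw [← Real.log_exp 1]
    exact Real.log_le_log (Real.exp_pos 1) hx1
  rw [Real.norm_of_nonneg (by positivity), Real.norm_of_nonneg (by positivity)] at hx
  have hp : 0 ≤ Real.log x ^ s := by positivity
  calc K * Real.log x ^ s ≤ (|K| + 1) * Real.log x ^ s := by
        refine mul_le_mul_of_nonneg_right ?_ hp
        linarith [le_abs_self K]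
    _ ≤ (|K| + 1) * (1 / (|K| + 1) * x ^ r) := by gcongr
    _ = x ^ r := by field_simp

theorem ev_const (K : ℝ) {r : ℝ} (hr : 0 < r) : ∀ᶠ x : ℝ in atTop, K ≤ x ^ r :=
  (tendsto_rpow_atTop hr).eventually_ge_atTop K

theorem Gd_large {x G W a H V0 : ℝ} (hG : 0 < G) (hW : 0 ≤ W)
    (hV : ∀ y, x ≤ y → y ≤ x + W → |Mx y| ≤ V0) (ha : 2 * V0 < |a|) (hH : H ≤ V0) :
    W / G - 1 ≤ (Gd x G W a H).ncard := by
  set N : ℕ := ⌊W / G⌋₊ with hNdef
  have hNG : (N : ℝ) * G ≤ W := by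
    have := Nat.floor_le (show 0 ≤ W / G by positivity)
    rwa [le_div_iff₀ hG] at this
  have hsub : (Finset.range N : Set ℕ) ⊆ Gd x G W a H := by
    intro j hj
    have h1 : ((j + 1 : ℕ) : ℝ) ≤ N := by
      exact_mod_cast Finset.mem_range.1 (Finset.mem_coe.1 hj)
    push_cast at h1
    have h2 : ((j : ℝ) + 1) * G ≤ W := (mul_le_mul_of_nonneg_right h1 hG.le).trans hNG
    refine ⟨h2, fun y hy => ?_⟩
    have h3 : 0 ≤ (j : ℝ) * G := by positivity
    have h4 := hV y (by linarith [hy.1]) (by linarith [hy.2])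
    have h5 : |a| ≤ |Mx y| + |Mx y - a| := by
      have := abs_sub_abs_le_abs_sub a (Mx y)
      rw [abs_sub_comm] at this
      linarith
    linarith
  have h1 := Set.ncard_le_ncard hsub (Gd_finite hG)
  rw [Set.ncard_coe_finset, Finset.card_range] at h1
  have h2 : (N : ℝ) ≤ (Gd x G W a H).ncard := by exact_mod_cast h1
  have h3 := Nat.lt_floor_add_one (W / G)
  linarith

theorem zero_le_sup {s : ℂ} (h : riemannZeta s = 0) (h0 : 0 < s.re) : s.re ≤ zetaSup := by
  have h1 := (Pool.Agent.W190.zero_FF h).2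
  exact le_csSup zset_bdd ⟨s, ⟨h, h0, h1⟩, rfl⟩

theorem exists_zero {e : ℝ} (he : 0 < e) (he1 : e ≤ 1 / 2) :
    ∃ s : ℂ, riemannZeta s = 0 ∧ zetaSup - e < s.re := by
  obtain ⟨s, h1, h2⟩ := zetaSup_sup e he
  have h3 := half_le_zetaSup
  exact ⟨s, (zeta_of_Zs h2 (by linarith)).1, h1⟩

theorem main {θ γ κ c ε : ℝ} (hθ : 1 / 2 ≤ θ) (hγ0 : 0 ≤ γ) (hγ : γ < 1) (hκ : 0 ≤ κ)
    (hc : 0 < c) (hε : 0 < ε) (hcond : 4 * θ * (1 - θ) * (κ + 1) ≤ 1)
    (hz : ∃ s : ℂ, riemannZeta s = 0 ∧ θ < s.re) :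
    ∀ᶠ x : ℝ in atTop, ∀ a : ℝ, x ^ (1 - γ - ε)
      ≤ (Gd x (x ^ γ) (c * x / Real.log x ^ κ) a (x ^ θ)).ncard := by
  obtain ⟨ρ, hρ0, hρ⟩ := hz
  set Θ : ℝ := zetaSup with hΘ
  have hΘθ : θ < Θ := hρ.trans_le (zero_le_sup hρ0 (by linarith))
  have hΘ1 : Θ ≤ 1 := zetaSup_le_one
  -- the parameters
  set ε' : ℝ := min ε ((1 - γ) / 2) with hε'
  have hε'0 : 0 < ε' := lt_min hε (by linarith)
  have hε'ε : ε' ≤ ε := min_le_left _ _
  have hε'γ : ε' ≤ (1 - γ) / 2 := min_le_right _ _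
  set e : ℝ := min (min ((Θ - θ) / 4) ((1 - γ) / 24)) (ε' / 4) with he
  have he0 : 0 < e := lt_min (lt_min (by linarith) (by linarith)) (by linarith)
  have he1 : e ≤ (Θ - θ) / 4 := (min_le_left _ _).trans (min_le_left _ _)
  have he2 : e ≤ (1 - γ) / 24 := (min_le_left _ _).trans (min_le_right _ _)
  have he3 : e ≤ ε' / 4 := min_le_right _ _
  have he4 : e ≤ 1 / 2 := by linarith
  obtain ⟨C2, hC20, hC2⟩ := incr_bound (b := c + 2) he0 he4 (by linarith)
  obtain ⟨σ0, hσ1, hσ2, hσ3, hσ4, C0, hC00, hC0⟩ := mertens_sup he0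
  set C1 : ℝ := C0 * (c + 2) ^ 2 + 1 with hC1
  have hC11 : 1 ≤ C1 := by
    have : 0 ≤ C0 * (c + 2) ^ 2 := by positivity
    linarith
  have hcond' : 4 * (Θ - e) * (1 - (Θ - e)) * (κ + 1) ≤ 1 := by
    refine le_trans ?_ hcond
    refine mul_le_mul_of_nonneg_right ?_ (by linarith)
    have h1 : 0 ≤ (Θ - e - θ) * (Θ - e + θ - 1) := mul_nonneg (by linarith) (by linarith)
    nlinarith
  have hwin := Pool.Agent.W190.moebius_window (κ := κ) (θ := Θ - e) (c := c) (δ := 0) hκ hc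
    zero_lt_one (by linarith) hcond' (exists_zero he0 he4)
  filter_upwards [hwin, eventually_ge_atTop (Real.exp 1), ev_const 3 (show 0 < 1 - γ by linarith),
    ev_const 8 (show 0 < Θ - 2 * e by linarith), ev_log 2 (432 * C2) he0,
    ev_const (6 * c) he0, ev_const (24 * C1) (show 0 < 1 - γ - 11 * e by linarith),
    ev_const (12 * C1) (show 0 < ε' - 2 * e by linarith), ev_log κ (2 / c) hε'0] with
    x hw hx1 g2 g3 g4 g5 g6 g7 g8 a
  have hx0 : 0 < x := (Real.exp_pos 1).trans_le hx1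
  have hx1' : 1 ≤ x := (Real.one_le_exp zero_le_one).trans hx1
  have hl : 1 ≤ Real.log x := by
    rw [← Real.log_exp 1]
    exact Real.log_le_log (Real.exp_pos 1) hx1
  have hlκ : 1 ≤ Real.log x ^ κ := Real.one_le_rpow hl hκ
  set G : ℝ := x ^ γ with hG
  have hG1 : 1 ≤ G := Real.one_le_rpow hx1' hγ0
  have h3G : 3 * G ≤ x := by
    calc 3 * G ≤ x ^ (1 - γ) * x ^ γ := by gcongr
      _ = x := by rw [← Real.rpow_add hx0]; simp
  set W : ℝ := c * x / Real.log x ^ κ with hW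
  have hW0 : 0 ≤ W := by positivity
  have hWc : W ≤ c * x := div_le_self (by positivity) hlκ
  set V0 : ℝ := C1 * x ^ (Θ + e) with hV0
  have hV : ∀ y, x ≤ y → y ≤ x + W → |Mx y| ≤ V0 := by
    intro y hy1 hy2
    have hy0 : 0 < y := by linarith
    refine (hC0 y (hx1'.trans hy1)).trans ?_
    have h1 : y ^ σ0 ≤ ((c + 2) * x) ^ σ0 := by
      refine Real.rpow_le_rpow hy0.le ?_ (by linarith)
      linarith
    have h2 : ((c + 2) * x) ^ σ0 ≤ (c + 2) ^ 2 * x ^ (Θ + e) := by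
      rw [Real.mul_rpow (by positivity) hx0.le]
      have h3 : (c + 2) ^ σ0 ≤ (c + 2) ^ (2 : ℝ) :=
        Real.rpow_le_rpow_of_exponent_le (by linarith) (by linarith)
      have h4 : x ^ σ0 ≤ x ^ (Θ + e) := Real.rpow_le_rpow_of_exponent_le hx1' hσ2
      have h5 : (c + 2) ^ (2 : ℝ) = (c + 2) ^ 2 := by norm_cast
      rw [h5] at h3
      gcongr
    have h6 : C0 * y ^ σ0 ≤ C0 * ((c + 2) ^ 2 * x ^ (Θ + e)) :=
      mul_le_mul_of_nonneg_left (h1.trans h2) hC00.le
    have h7 : 0 ≤ x ^ (Θ + e) := by positivity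
    rw [hV0, hC1]
    nlinarith
  have hxε : x ^ (1 - γ - ε) ≤ x ^ (1 - γ - ε') :=
    Real.rpow_le_rpow_of_exponent_le hx1' (by linarith)
  refine hxε.trans ?_
  have hθV : x ^ θ ≤ V0 := by
    calc x ^ θ ≤ x ^ (Θ + e) := Real.rpow_le_rpow_of_exponent_le hx1' (by linarith)
      _ ≤ C1 * x ^ (Θ + e) := le_mul_of_one_le_left (by positivity) hC11
  rcases lt_or_ge (2 * V0) |a| with ha | ha
  · -- large `a`
    refine le_trans ?_ (Gd_large (by linarith) hW0 hV ha hθV)
    have h1 : W / G = c * x ^ (1 - γ) / Real.log x ^ κ := by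
      rw [hW, hG, Real.rpow_sub hx0, Real.rpow_one]
      field_simp
    have h2 : 2 * x ^ (1 - γ - ε') ≤ W / G := by
      rw [h1, le_div_iff₀ (by positivity)]
      have h3 : 2 * Real.log x ^ κ ≤ c * x ^ ε' := by
        have := mul_le_mul_of_nonneg_left g8 hc.le
        calc 2 * Real.log x ^ κ = c * (2 / c * Real.log x ^ κ) := by field_simp
          _ ≤ _ := this
      calc 2 * x ^ (1 - γ - ε') * Real.log x ^ κ
          = (2 * Real.log x ^ κ) * x ^ (1 - γ - ε') := by ring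
        _ ≤ (c * x ^ ε') * x ^ (1 - γ - ε') := by gcongr
        _ = c * x ^ (1 - γ) := by
          rw [mul_assoc, ← Real.rpow_add hx0]
          congr 2
          ring
    have h4 : 1 ≤ x ^ (1 - γ - ε') := Real.one_le_rpow hx1' (by linarith)
    linarith
  · -- small `a`
    have hms : MS x (c + 2) (2 * Θ + 4 * e) C2 := fun δ h1 h2 h3 => hC2 x δ hx0 h1 h2 h3
    obtain ⟨nb, hnb, hI⟩ := core (H := x ^ (Θ - 2 * e)) (H' := x ^ θ) hms hC20.le hG1 h3G hW0
      (show x + W + G ≤ (c + 2) * x by linarith) g3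
      (Real.rpow_le_rpow_of_exponent_le hx1' (by linarith)) hV ha
    have hP := hw (Polynomial.C a) (by
      rw [Polynomial.natDegree_C, Real.rpow_zero]
      norm_num)
    simp only [Polynomial.eval_C] at hP
    have hP' : x ^ (1 + (Θ - e)) < ∫ y in x..(x + W), |Mx y - a| := hP
    set n : ℝ := ((Gd x G W a (x ^ θ)).ncard : ℝ) with hn
    -- the number of bad intervals
    have hnb' : nb ≤ x ^ (9 * e) := by
      have h1 : (x ^ (Θ - 2 * e)) ^ 2 = x ^ (2 * Θ - 4 * e) := by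
        rw [← Real.rpow_natCast, ← Real.rpow_mul hx0.le]
        congr 1
        push_cast
        ring
      rw [h1] at hnb
      have h2 : 108 * C2 * (1 + Real.log x) ^ 2 ≤ x ^ e := by
        refine le_trans ?_ g4
        have h3 : Real.log x ^ (2 : ℝ) = Real.log x ^ 2 := by norm_cast
        rw [h3]
        have h4 : (1 + Real.log x) ^ 2 ≤ (2 * Real.log x) ^ 2 :=
          pow_le_pow_left₀ (by linarith) (by linarith) 2
        nlinarith
      have h3 : nb * x ^ (2 * Θ - 4 * e) ≤ x ^ (9 * e) * x ^ (2 * Θ - 4 * e) := by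
        refine hnb.trans ?_
        calc 108 * C2 * (1 + Real.log x) ^ 2 * x ^ (2 * Θ + 4 * e)
            ≤ x ^ e * x ^ (2 * Θ + 4 * e) := by gcongr
          _ = x ^ (9 * e) * x ^ (2 * Θ - 4 * e) := by
            rw [← Real.rpow_add hx0, ← Real.rpow_add hx0]
            congr 1
            ring
      exact le_of_mul_le_mul_right h3 (by positivity)
    -- the contribution of the intervals with small values
    have h1 : 3 * x ^ (Θ - 2 * e) * W ≤ x ^ (1 + (Θ - e)) / 2 := by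
      calc 3 * x ^ (Θ - 2 * e) * W ≤ 3 * x ^ (Θ - 2 * e) * (c * x) := by gcongr
        _ = (6 * c) * (x ^ (Θ - 2 * e) * x ^ (1 : ℝ)) / 2 := by rw [Real.rpow_one]; ring
        _ ≤ x ^ e * (x ^ (Θ - 2 * e) * x ^ (1 : ℝ)) / 2 := by gcongr
        _ = x ^ (1 + (Θ - e)) / 2 := by
          rw [← Real.rpow_add hx0, ← Real.rpow_add hx0]
          congr 2
          ring
    have h2 : x ^ (1 + (Θ - e)) / 2 < (nb + n + 1) * (3 * V0 * G) := by linarith
    have h3 : 3 * V0 * G = 3 * C1 * x ^ (Θ + e + γ) := by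
      rw [hV0, hG, Real.rpow_add hx0 (Θ + e) γ]
      ring
    rw [h3] at h2
    set Z : ℝ := x ^ (1 - γ - 2 * e) with hZ
    have hZ0 : 0 < Z := by positivity
    have h4 : x ^ (1 + (Θ - e)) = Z * x ^ (Θ + e + γ) := by
      rw [hZ, ← Real.rpow_add hx0]
      congr 1
      ring
    rw [h4] at h2
    have hY : 0 < x ^ (Θ + e + γ) := by positivity
    have h5 : Z / 2 < (nb + n + 1) * (3 * C1) := by
      have : Z / 2 * x ^ (Θ + e + γ) < (nb + n + 1) * (3 * C1) * x ^ (Θ + e + γ) := by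
        calc Z / 2 * x ^ (Θ + e + γ) = Z * x ^ (Θ + e + γ) / 2 := by ring
          _ < (nb + n + 1) * (3 * C1 * x ^ (Θ + e + γ)) := h2
          _ = _ := by ring
      exact lt_of_mul_lt_mul_right this hY.le
    have h6 : 24 * C1 * x ^ (9 * e) ≤ Z := by
      calc 24 * C1 * x ^ (9 * e) ≤ x ^ (1 - γ - 11 * e) * x ^ (9 * e) := by gcongr
        _ = Z := by
          rw [hZ, ← Real.rpow_add hx0]
          congr 1
          ring
    have h7 : 1 ≤ x ^ (9 * e) := Real.one_le_rpow hx1' (by linarith)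
    have h8 : 12 * C1 * x ^ (1 - γ - ε') ≤ Z := by
      calc 12 * C1 * x ^ (1 - γ - ε') ≤ x ^ (ε' - 2 * e) * x ^ (1 - γ - ε') := by gcongr
        _ = Z := by
          rw [hZ, ← Real.rpow_add hx0]
          congr 1
          ring
    have h9 : (nb + 1) * (12 * C1) ≤ Z := by
      calc (nb + 1) * (12 * C1) ≤ (x ^ (9 * e) + x ^ (9 * e)) * (12 * C1) := by gcongr
        _ = 24 * C1 * x ^ (9 * e) := by ring
        _ ≤ Z := h6
    have h10 : Z < n * (12 * C1) := by
      have : (nb + n + 1) * (3 * C1) = ((nb + 1) * (12 * C1) + n * (12 * C1)) / 4 := by ring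
      linarith
    have h11 : x ^ (1 - γ - ε') * (12 * C1) ≤ n * (12 * C1) := by linarith
    exact le_of_mul_le_mul_right h11 (by positivity)

end

end Pool.Agent.TH301.SM
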