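import Pool.Agent.TH301.SM.G

/-!
The sign of `M - a` on the intervals, and the dichotomy.
-/

set_option autoImplicit false

open MeasureTheory Set Filter Topology
open Pool.Agent.H295R2
open scoped ENNReal

namespace Pool.Agent.TH301.SM

noncomputable section

theorem Mx_nat_succ (n : ℕ) : |Mx ((n + 1 : ℕ) : ℝ) - Mx (n : ℝ)| ≤ 1 := by
  have h : Mx ((n + 1 : ℕ) : ℝ) = Mx (n : ℝ) + mu (n + 1) := by
    unfold Mx
    rw [Nat.floor_natCast, Nat.floor_natCast, Finset.sum_Icc_succ_top (by omega)]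
  rw [h, add_sub_cancel_left]
  exact abs_mu_le _

theorem Mx_floor {y : ℝ} : Mx y = Mx ((⌊y⌋₊ : ℕ) : ℝ) := by
  unfold Mx
  rw [Nat.floor_natCast]

/-- No jump over a long interval of values. -/
theorem no_jump (f : ℕ → ℝ) (hf : ∀ n, |f (n + 1) - f n| ≤ 1) {H : ℝ} (hH : 1 ≤ H) {m n : ℕ}
    (hmn : m ≤ n) (h : ∀ k, m < k → k ≤ n → H < |f k|) (hm : H < f m) : H < f n := by
  induction n, hmn using Nat.le_induction with
  | base => exact hm
  | succ n hmn ih =>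
    have h1 := ih fun k h1 h2 => h k h1 (by omega)
    have h2 := h (n + 1) (by omega) le_rfl
    have h3 := abs_le.1 (hf n)
    rcases lt_abs.1 h2 with h4 | h4
    · exact h4
    · linarith

theorem sign_const {p q a H : ℝ} (hp : 0 ≤ p) (hH : 1 ≤ H)
    (h : ∀ y ∈ Icc p q, H < |Mx y - a|) :
    (∀ y ∈ Icc p q, a + H < Mx y) ∨ ∀ y ∈ Icc p q, Mx y < a - H := by
  rcases lt_or_ge q p with hpq | hpq
  · left
    intro y hy
    exact absurd (hy.1.trans hy.2) (not_le.2 hpq)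
  -- a general step
  have key : ∀ s : ℝ, (s = 1 ∨ s = -1) → H < s * (Mx p - a) → ∀ y ∈ Icc p q,
      H < s * (Mx y - a) := by
    intro s hs h1 y hy
    have hs1 : |s| = 1 := by rcases hs with h | h <;> rw [h] <;> simp
    have h2 := no_jump (fun n => s * (Mx (n : ℝ) - a)) (fun n => ?_) hH
      (Nat.floor_le_floor hy.1) (fun k hk1 hk2 => ?_) ?_
    · rw [Mx_floor]
      exact h2
    · rw [← mul_sub, abs_mul, hs1, one_mul, sub_sub_sub_cancel_right]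
      exact Mx_nat_succ n
    · rw [abs_mul, hs1, one_mul]
      refine h _ ⟨?_, ?_⟩
      · exact ((Nat.floor_lt hp).1 hk1).le
      · exact (Nat.le_floor_iff (hp.trans hy.1)).1 hk2 |>.trans hy.2
    · rw [← Mx_floor]
      exact h1
  rcases lt_abs.1 (h p ⟨le_rfl, hpq⟩) with h1 | h1
  · left
    intro y hy
    have := key 1 (Or.inl rfl) (by linarith) y hy
    linarith
  · right
    intro y hy
    have := key (-1) (Or.inr rfl) (by linarith) y hy
    linarith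

/-- The indices of the intervals of length `L` in the window `[x, x + W]` on which `M > a + H`
throughout or `M < a - H` throughout. -/
def Gs (x W L a H : ℝ) : Set ℕ :=
  {j : ℕ | (j + 1) * L ≤ W ∧
    ((∀ y ∈ Icc (x + j * L) (x + (j + 1) * L), a + H < Mx y) ∨
      ∀ y ∈ Icc (x + j * L) (x + (j + 1) * L), Mx y < a - H)}

theorem Gd_subset {x W L a H : ℝ} (hx : 0 ≤ x) (hL : 0 ≤ L) (hH : 1 ≤ H) :
    Gd x L W a H ⊆ Gs x W L a H := fun j hj => ⟨hj.1, sign_const (by positivity) hH hj.2⟩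

theorem Gs_finite {x G W a H : ℝ} (hG : 0 < G) : (Gs x W G a H).Finite := by
  refine (Finset.finite_toSet (Finset.range (⌈W / G⌉₊ + 1))).subset fun j hj => ?_
  have h1 : ((j : ℝ) + 1) ≤ W / G := (le_div_iff₀ hG).2 hj.1
  have h2 := Nat.le_ceil (W / G)
  simp only [Finset.coe_range, mem_Iio]
  have h3 : ((j + 1 : ℕ) : ℝ) ≤ (⌈W / G⌉₊ : ℝ) := by
    push_cast
    linarith
  have h4 : j + 1 ≤ ⌈W / G⌉₊ := by exact_mod_cast h3
  omega

theorem main_sign {θ γ κ c ε : ℝ} (hθ : 1 / 2 ≤ θ) (hγ0 : 0 ≤ γ) (hγ : γ < 1) (hκ : 0 ≤ κ)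
    (hc : 0 < c) (hε : 0 < ε) (hcond : 4 * θ * (1 - θ) * (κ + 1) ≤ 1)
    (hz : ∃ s : ℂ, riemannZeta s = 0 ∧ θ < s.re) :
    ∀ᶠ x : ℝ in atTop, ∀ a : ℝ, x ^ (1 - γ - ε)
      ≤ (Gs x (c * x / Real.log x ^ κ) (x ^ γ) a (x ^ θ)).ncard := by
  filter_upwards [main hθ hγ0 hγ hκ hc hε hcond hz, eventually_ge_atTop (1 : ℝ)] with x hx hx1 a
  refine (hx a).trans ?_
  have h1 := Set.ncard_le_ncard (Gd_subset (x := x) (W := c * x / Real.log x ^ κ) (L := x ^ γ)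
    (a := a) (H := x ^ θ) (by linarith) (by positivity)
    (Real.one_le_rpow hx1 (by linarith))) (Gs_finite (by positivity))
  exact_mod_cast h1

/-- The dichotomy. -/
theorem dichotomy {θ γ κ c ε : ℝ} (hθ : 1 / 2 ≤ θ) (hγ0 : 0 ≤ γ) (hγ : γ < 1) (hκ : 0 ≤ κ)
    (hc : 0 < c) (hε : 0 < ε) (hcond : 4 * θ * (1 - θ) * (κ + 1) ≤ 1) :
    (∀ η : ℝ, 0 < η → ∃ C : ℝ, ∀ x : ℝ, 1 ≤ x → |Mx x| ≤ C * x ^ (θ + η)) ∨
    ∀ᶠ x : ℝ in atTop, ∀ a : ℝ, x ^ (1 - γ - ε)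
      ≤ (Gs x (c * x / Real.log x ^ κ) (x ^ γ) a (x ^ θ)).ncard := by
  by_cases hz : ∃ s : ℂ, riemannZeta s = 0 ∧ θ < s.re
  · exact Or.inr (main_sign hθ hγ0 hγ hκ hc hε hcond hz)
  · left
    intro η hη
    have hfree : ∀ s : ℂ, θ < s.re → Zs s ≠ 0 := by
      intro s hs hzs
      exact hz ⟨s, (zeta_of_Zs hzs (by linarith)).1, hs⟩
    rcases le_or_gt (θ + η) 2 with h | h
    · obtain ⟨C, -, hC⟩ := mertens_bound (σ := θ + η) (by linarith) hfree (by linarith) h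
      exact ⟨C, hC⟩
    · refine ⟨1, fun x hx => (abs_Mx_le (by linarith)).trans ?_⟩
      rw [one_mul]
      calc x = x ^ (1 : ℝ) := (Real.rpow_one x).symm
        _ ≤ x ^ (θ + η) := Real.rpow_le_rpow_of_exponent_le hx (by linarith)

end

end Pool.Agent.TH301.SM
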